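import Mathlib
import Pool.Agent.X199.FTVS2

/-!
# Free topological vector spaces of closed discrete subspaces of metrizable spaces
-/

set_option autoImplicit false

open Set Topology TopologicalSpace

universe u

namespace Pool.Agent.Results.MP_aab88c_gt.ClosedDiscrete

open Pool.Agent.X199.FT

/-- If `Y` is a closed discrete subspace of the metrizable space `X`, then the free topological
vector space over `Y` is topologically isomorphic to a vector subspace of the free topological
vector space over `X`. -/
theorem result (X : Type u) [TopologicalSpace X] [MetrizableSpace X] (Y : Set X)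
    (hY : IsClosed Y) (hd : DiscreteTopology Y) (V : Type u) [AddCommGroup V] [Module ℝ V]
    [TopologicalSpace V] (i : X → V) (hV : IsFreeTVS X V i) (W : Type u) [AddCommGroup W]
    [Module ℝ W] [TopologicalSpace W] (j : Y → W) (hW : IsFreeTVS Y W j) :
    ∃ T : W →ₗ[ℝ] V, IsEmbedding T := by
  let _ : MetricSpace X := metrizableSpaceMetric X
  have h1 := hV.addGroup
  have h2 := hV.contSMul
  have h3 := hW.addGroup
  have h4 := hW.contSMul
  obtain ⟨r, hr, hry⟩ := exists_ext hY hd j
  obtain ⟨T, hT, -⟩ := hW.lift V (fun y => i y) (hV.cont.comp continuous_subtype_val)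
  obtain ⟨R, hR, -⟩ := hV.lift W r hr
  obtain ⟨g, -, hg⟩ := hW.lift W j hW.cont
  have h5 : R.comp T = g := hg _ fun y => by
    change R (T (j y)) = j y
    rw [hT, hR, hry]
  have h6 : ContinuousLinearMap.id ℝ W = g := hg _ fun y => rfl
  have h7 : Function.LeftInverse R T := by
    intro w
    have := congrArg (fun k : W →L[ℝ] W => k w) (h5.trans h6.symm)
    exact this
  exact ⟨T.toLinearMap, h7.isEmbedding R.continuous T.continuous⟩

end Pool.Agent.Results.MP_aab88c_gt.ClosedDiscrete
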